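import Pool.Agent.Lib_helper9.MED.Scale
import Pool.Agent.Lib_helper62.SIE.D

/-!
# MED (MP_cc4f83_nt): the thresholds `N^{-ε}`, from Siegel's theorem
-/

set_option autoImplicit false

namespace Pool.Agent.MED

open Filter Topology
open Pool.Agent.LK (PQ)
open Pool.Agent.LEV (S2 IsNew co Lh HE)
open Pool.Agent.T12

theorem med_ev {b ε : ℝ} (hε : 0 < ε) : ∃ N₀ : ℕ, ∀ N : ℕ, N₀ ≤ N →
    1 / b ≤ (N : ℝ) ^ (ε / 2) ∧ Real.log N ≤ (N : ℝ) ^ ε := by
  have hev : ∀ᶠ x : ℝ in atTop, 1 / b ≤ x ^ (ε / 2) ∧ Real.log x ≤ x ^ ε := by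
    refine ((tendsto_rpow_atTop (half_pos hε)).eventually_ge_atTop _).and ?_
    have h := (isLittleO_log_rpow_atTop hε).def one_pos
    filter_upwards [h, eventually_ge_atTop (1 : ℝ)] with x hx hx1
    rw [one_mul, Real.norm_of_nonneg (Real.log_nonneg hx1),
      Real.norm_of_nonneg (Real.rpow_nonneg (by linarith) _)] at hx
    exact hx
  exact eventually_atTop.mp (tendsto_natCast_atTop_atTop.eventually hev)

/-- more than half of the central values exceed `N^{-ε}` -/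
theorem med_siegel {c κ : ℝ} (hL : LowLaw c κ) (hκ : κ ≤ 1 / 2) : ∀ ε : ℝ, 0 < ε → ∃ N₀ : ℕ,
    ∀ (N : ℕ) [Fact N.Prime], N₀ ≤ N → 1 / 2 + c ≤ sT N ((N : ℝ) ^ (-ε)) := by
  intro ε hε
  obtain ⟨b, hb, hs⟩ := SIE.siegel (ε / 2) (half_pos hε)
  obtain ⟨N₁, h1⟩ := hL (1 / 2) (by norm_num)
  obtain ⟨N₂, h2⟩ := med_ev (b := b) hε
  refine ⟨N₁ + N₂ + 3, fun N _ hN => ?_⟩
  have hlog := med_log (show 3 ≤ N by omega)
  have hN1 : (1 : ℝ) < N := by exact_mod_cast (by omega : 1 < N)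
  have hN0 : (0 : ℝ) < N := by linarith
  obtain ⟨h3, h4⟩ := h2 N (by omega)
  have hp : 0 < (N : ℝ) ^ (-(ε / 2)) := Real.rpow_pos_of_pos hN0 _
  obtain ⟨w, hw⟩ : ∃ w : ℝ, w = min (b * (N : ℝ) ^ (-(ε / 2))) (1 / Real.log N) := ⟨_, rfl⟩
  have hw0 : 0 < w := by
    rw [hw]
    exact lt_min (by positivity) (by positivity)
  have hw1 : w ≤ 1 / Real.log N := by rw [hw]; exact min_le_right _ _
  have hw2 : w ≤ b * (N : ℝ) ^ (-(ε / 2)) := by rw [hw]; exact min_le_left _ _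
  have h5 := h1 N (by omega) w hw0 hw1 (fun q _ χ β hr hq _ => by
    have hq0 : (0 : ℝ) < q := by exact_mod_cast Nat.pos_of_ne_zero (NeZero.ne q)
    have hqN : (q : ℝ) ≤ N := by
      refine hq.trans ?_
      calc (N : ℝ) ^ κ ≤ (N : ℝ) ^ (1 : ℝ) :=
            Real.rpow_le_rpow_of_exponent_le hN1.le (by linarith)
        _ = N := Real.rpow_one _
    have h6 := hs q χ hr.pq β hr.zero hr.lt.le
    have h7 : (q : ℝ) ^ (ε / 2) ≤ (N : ℝ) ^ (ε / 2) :=
      Real.rpow_le_rpow hq0.le hqN (half_pos hε).le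
    have h8 : b * (N : ℝ) ^ (-(ε / 2)) ≤ b / (q : ℝ) ^ (ε / 2) := by
      rw [Real.rpow_neg hN0.le, ← div_eq_mul_inv]
      exact div_le_div_of_nonneg_left hb.le (by positivity) h7
    linarith)
  have e : (1 : ℝ) / 2 - 1 / 2 = 0 := by norm_num
  rw [e, Real.rpow_zero, mul_one] at h5
  refine h5.trans (sT_anti ?_)
  rw [hw]
  apply le_min
  · have h6 : (N : ℝ) ^ (-ε) = (N : ℝ) ^ (-(ε / 2)) * (N : ℝ) ^ (-(ε / 2)) := by
      rw [← Real.rpow_add hN0]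
      congr 1
      ring
    rw [h6]
    apply mul_le_mul_of_nonneg_right _ hp.le
    rw [Real.rpow_neg hN0.le, inv_le_comm₀ (by positivity) hb, ← one_div]
    exact h3
  · rw [Real.rpow_neg hN0.le, ← one_div]
    exact one_div_le_one_div_of_le (by linarith) h4

end Pool.Agent.MED
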