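import Pool.Agent.Lib_helper82.T12.Main

/-!
# MED (MP_cc4f83_nt): the law of the central values of one level at all thresholds
-/

set_option autoImplicit false

namespace Pool.Agent.MED

open MeasureTheory ProbabilityTheory
open Pool.Agent.LK (PQ)
open Pool.Agent.LEV (S2 IsNew co Lh HE)
open Pool.Agent.T12

/-- the share of the even newforms with `L(1/2, f) > t` -/
noncomputable def sT (N : ℕ) [Fact N.Prime] (t : ℝ) : ℝ := sh N fun f => t < (Lh f).re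

theorem sT_anti {N : ℕ} [Fact N.Prime] {t u : ℝ} (h : t ≤ u) : sT N u ≤ sT N t :=
  sh_mono fun _ _ h1 => h.trans_lt h1

theorem sT_rA (A : ℝ) (N : ℕ) [Fact N.Prime] : rA A N = sT N (Real.log N ^ (-A)) := rfl

theorem sT_norm {N : ℕ} [Fact N.Prime] (hN : 3 ≤ N) (t : ℝ) :
    sT N t = sh N (fun f => t < ‖Lh f‖) := by
  apply le_antisymm
  · apply sh_mono
    intro f hf h
    rw [lh_norm hN hf]
    exact h
  · apply sh_mono
    intro f hf h
    rw [lh_norm hN hf] at h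
    exact h

theorem med_log {N : ℕ} (hN : 3 ≤ N) : 1 < Real.log N := by
  have h : (3 : ℝ) ≤ N := by exact_mod_cast hN
  rw [Real.lt_log_iff_exp_lt (by linarith)]
  have := Real.exp_one_lt_three
  linarith

/-- three fifths of the central values exceed `(1 - β) (log N)^{1/2 - δ}` -/
theorem med_count : ∀ ε : ℝ, 0 < ε → ∃ κ : ℝ, 0 < κ ∧ ∀ δ : ℝ, 0 < δ → ∃ N₀ : ℕ,
    ∀ (N : ℕ) [Fact N.Prime], N₀ ≤ N → ∀ (q : ℕ) [NeZero q] (χ : DirichletCharacter ℂ q) (β : ℝ),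
    XZ κ N χ β → χ (-(N : ZMod q)) = 1 →
      (N : ℝ) / 24 * (3 / 5 - ε) ≤ ({f : S2 N | (IsNew f ∧ co f N = 1) ∧
        (1 - β) * Real.log N ^ (1 / 2 - δ) < ‖Lh f‖}.ncard : ℝ) := by
  intro ε hε
  have hF : FourP := TEM.four_plus
  obtain ⟨κ, hκ, h⟩ := hF (ε / 2) (half_pos hε)
  have h3 : Three := three
  refine ⟨min κ (min LX.dl 1), lt_min hκ (lt_min LX.dl_pos one_pos), fun δ hδ => ?_⟩
  obtain ⟨d, hd, hd1⟩ : ∃ d : ℝ, 0 < d ∧ 4 * d ≤ δ := ⟨δ / 4, by linarith, by linarith⟩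
  obtain ⟨N₁, h1⟩ := h d hd
  obtain ⟨N₂, h2⟩ := h3 0 (ε / 96) d (by positivity) hd
  obtain ⟨N₃, h4⟩ := h3 2 (ε / 96) d (by positivity) hd
  obtain ⟨N₄, h5⟩ := log_abs 3 hd
  refine ⟨N₁ + N₂ + N₃ + N₄ + 3, fun N _ hN q _ χ β hx hs => ?_⟩
  have hlog1 : 1 < Real.log N := med_log (by omega)
  have hlog : 0 < Real.log N := by linarith
  have hx1 : XZ κ N χ β := xz_mono (min_le_left _ _) (by omega) hx
  have hx2 : XZ LX.dl N χ β := xz_mono ((min_le_right _ _).trans (min_le_left _ _)) (by omega) hx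
  have hx3 : XZ 1 N χ β := xz_mono ((min_le_right _ _).trans (min_le_right _ _)) (by omega) hx
  have h6 := h1 N (by omega) q χ β ((ex_iff χ β).2 hx1) hs
  have h7 := h2 N (by omega) q χ hx.rz.pq hx2.hq (Or.inl ⟨hs, Or.inl rfl⟩)
  have h8 := h4 N (by omega) q χ hx.rz.pq hx2.hq (Or.inl ⟨hs, Or.inr rfl⟩)
  have h9 := h5 N (by omega)
  have hb0 : 0 < 1 - β := by have := hx.rz.lt; linarith
  have hb1 : (1 - β) * Real.log N ≤ 1 := by
    have h10 := hx3.hβ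
    have h11 : 1 - β < 1 / Real.log N := by linarith
    rw [lt_div_iff₀ hlog] at h11
    exact h11.le
  have h10 := nc_diff (R := fun f => Real.log N ^ (-d) ≤
      ‖Lh f‖ * (|uu χ 2 f| / Real.log N + |uu χ 0 f| / (1 - β)) ∧
      |uu χ 0 f| ≤ Real.log N ^ (((0 : ℕ) : ℝ) - 1 / 2 + d)) h6 h7
    (fun f _ _ h11 h12 => ⟨h11, not_lt.1 h12⟩)
  have h11 := nc_diff (R := fun f => (1 - β) * Real.log N ^ (1 / 2 - δ) < ‖Lh f‖) h10 h8
    (fun f _ _ h12 h13 => by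
      obtain ⟨h12, h14⟩ := h12
      push Not at h13
      by_contra h15
      push Not at h15
      obtain ⟨e, he⟩ : ∃ e : ℝ, e = Real.log N ^ (-(1 / 2) + d) := ⟨_, rfl⟩
      have he0 : 0 < e := by rw [he]; exact Real.rpow_pos_of_pos hlog _
      have h16 : |uu χ 2 f| / Real.log N ≤ e / (1 - β) := by
        have h17 : |uu χ 2 f| ≤ e * Real.log N ^ 2 := by
          refine h13.trans (le_of_eq ?_)
          rw [he, ← Real.rpow_natCast (Real.log N) 2, ← Real.rpow_add hlog]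
          congr 1
          push_cast
          ring
        rw [div_le_div_iff₀ hlog hb0]
        calc |uu χ 2 f| * (1 - β) ≤ e * Real.log N ^ 2 * (1 - β) :=
              mul_le_mul_of_nonneg_right h17 hb0.le
          _ = e * Real.log N * ((1 - β) * Real.log N) := by ring
          _ ≤ e * Real.log N * 1 := mul_le_mul_of_nonneg_left hb1 (by positivity)
          _ = _ := mul_one _
      have h17 : |uu χ 0 f| / (1 - β) ≤ e / (1 - β) := by
        apply div_le_div_of_nonneg_right _ hb0.le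
        refine h14.trans (le_of_eq ?_)
        rw [he]
        congr 1
        push_cast
        ring
      have hp : 0 < Real.log N ^ (1 / 2 - δ) := Real.rpow_pos_of_pos hlog _
      have h18 : Real.log N ^ (-d) ≤
          ((1 - β) * Real.log N ^ (1 / 2 - δ)) * (2 * (e / (1 - β))) := by
        refine h12.trans (mul_le_mul h15 (by linarith) ?_ ?_)
        · positivity
        · positivity
      have h19 : ((1 - β) * Real.log N ^ (1 / 2 - δ)) * (2 * (e / (1 - β))) =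
          2 * Real.log N ^ (d - δ) := by
        have h20 : Real.log N ^ (d - δ) = Real.log N ^ (1 / 2 - δ) * e := by
          rw [he, ← Real.rpow_add hlog]
          congr 1
          ring
        rw [h20]
        field_simp
      have h20 : Real.log N ^ (d - δ) ≤ Real.log N ^ (-(3 * d)) :=
        Real.rpow_le_rpow_of_exponent_le hlog1.le (by linarith)
      have h21 : Real.log N ^ (-d) =
          Real.log N ^ (-(3 * d)) * (Real.log N ^ d * Real.log N ^ d) := by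
        rw [← Real.rpow_add hlog, ← Real.rpow_add hlog]
        congr 1
        ring
      rw [h19, h21] at h18
      have h22 : 0 < Real.log N ^ (-(3 * d)) := Real.rpow_pos_of_pos hlog _
      have h23 : (9 : ℝ) ≤ Real.log N ^ d * Real.log N ^ d := by
        nlinarith only [h9]
      have h24 := mul_le_mul_of_nonneg_left h23 h22.le
      linarith only [h18, h20, h22, h24])
  have h12 : (3 / 5 - ε / 2) * ((N : ℝ) / 24) - ε / 96 * N - ε / 96 * N =
    N / 24 * (3 / 5 - ε) := by ring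
  linarith

/-- at a level with an exceptional zero, `χ(-N) = 1`: three fifths -/
theorem med_three : ∀ ε : ℝ, 0 < ε → ∃ κ : ℝ, 0 < κ ∧ ∀ δ : ℝ, 0 < δ → ∃ N₀ : ℕ,
    ∀ (N : ℕ) [Fact N.Prime], N₀ ≤ N → ∀ (q : ℕ) [NeZero q] (χ : DirichletCharacter ℂ q) (β : ℝ),
    XZ κ N χ β → χ (-(N : ZMod q)) = 1 →
      3 / 5 - ε ≤ sT N ((1 - β) * Real.log N ^ (1 / 2 - δ)) := by
  intro ε hε
  obtain ⟨e, N₁, he, h1⟩ := sh_low (w := 3 / 5) (by norm_num) hε
  obtain ⟨κ, hκ, h⟩ := med_count e he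
  refine ⟨κ, hκ, fun δ hδ => ?_⟩
  obtain ⟨N₂, h2⟩ := h δ hδ
  refine ⟨N₁ + N₂ + 3, fun N _ hN q _ χ β hx hs => ?_⟩
  rw [sT_norm (by omega)]
  exact h1 N (by omega) _ (h2 N (by omega) q χ β hx hs)

/-- at a level with an exceptional zero, `χ(-N) = 1`: at most one half -/
theorem med_up : ∀ ε : ℝ, 0 < ε → ∃ κ : ℝ, 0 < κ ∧ ∀ δ : ℝ, 0 < δ → ∃ N₀ : ℕ,
    ∀ (N : ℕ) [Fact N.Prime], N₀ ≤ N → ∀ (q : ℕ) [NeZero q] (χ : DirichletCharacter ℂ q) (β : ℝ),
    XZ κ N χ β → χ (-(N : ZMod q)) = 1 →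
      sT N ((1 - β) * Real.log N ^ (1 / 2 + δ)) ≤ 1 / 2 + ε := by
  intro ε hε
  obtain ⟨e₁, N₁, he₁, h3⟩ := sh_low (w := 1 / 2) (by norm_num) (show (0 : ℝ) < ε / 2 by positivity)
  obtain ⟨e₂, N₂, he₂, h4⟩ := sh_up (show (0 : ℝ) < ε / 2 by positivity)
  obtain ⟨κ₁, hκ₁, h1⟩ := th e₁ he₁
  obtain ⟨κ₂, hκ₂, h2⟩ := sp e₂ he₂
  refine ⟨min κ₁ κ₂, lt_min hκ₁ hκ₂, fun δ hδ => ?_⟩
  obtain ⟨N₃, h1⟩ := h1 (δ / 2) (by positivity)
  obtain ⟨N₄, h2⟩ := h2 (δ / 2) (by positivity)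
  obtain ⟨N₆, h6⟩ := he_pos
  refine ⟨N₁ + N₂ + N₃ + N₄ + N₆ + 3, fun N _ hN q _ χ β hx hs => ?_⟩
  have hlog : 0 < Real.log N := by
    have := med_log (show 3 ≤ N by omega)
    linarith
  have hx1 : XZ κ₁ N χ β := xz_mono (min_le_left _ _) (by omega) hx
  have hx2 : XZ κ₂ N χ β := xz_mono (min_le_right _ _) (by omega) hx
  have hb0 : 0 < 1 - β := by have := hx.rz.lt; linarith
  have h7 := h3 N (by omega) _ (h1 N (by omega) q χ hx.rz.pq hx1.hq hs)
  have h8 := h4 N (by omega) _ (h2 N (by omega) q χ β hx2 hs)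
  have h10 := h6 N (by omega)
  have h11 := sh_compl h10 (fun f => (1 - β) * Real.log N ^ (1 / 2 + δ) < ‖Lh f‖)
  rw [← sT_norm (by omega)] at h11
  have h12 : sh N (fun f => Real.log N ^ (-(1 / 2 + δ / 2)) ≤ |TK.bx χ f|) ≤
      sh N (fun f => ¬ (1 - β) * Real.log N ^ (1 / 2 + δ) < ‖Lh f‖) +
      sh N (fun f => (1 - β) * Real.log N ^ (δ / 2) < ‖Lh f‖ * |TK.bx χ f|) := by
    refine le_trans (sh_mono fun f hf h13 => ?_) (sh_or _ _)
    by_cases h14 : (1 - β) * Real.log N ^ (1 / 2 + δ) < ‖Lh f‖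
    · right
      have h15 : 0 < Real.log N ^ (-(1 / 2 + δ / 2)) := Real.rpow_pos_of_pos hlog _
      calc (1 - β) * Real.log N ^ (δ / 2)
          = (1 - β) * Real.log N ^ (1 / 2 + δ) * Real.log N ^ (-(1 / 2 + δ / 2)) := by
            rw [mul_assoc, ← Real.rpow_add hlog]
            congr 2
            ring
        _ < ‖Lh f‖ * Real.log N ^ (-(1 / 2 + δ / 2)) := mul_lt_mul_of_pos_right h14 h15
        _ ≤ ‖Lh f‖ * |TK.bx χ f| := mul_le_mul_of_nonneg_left h13 (norm_nonneg _)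
    · exact Or.inl h14
  linarith

/-- more than half above `w (log N)^{1/2 - δ}`, if no zero is within `w` of `1` -/
theorem med_low : ∃ c κ : ℝ, 0 < c ∧ 0 < κ ∧ κ ≤ 1 / 2 ∧ ∀ δ : ℝ, 0 < δ → ∃ N₀ : ℕ,
    ∀ (N : ℕ) [Fact N.Prime], N₀ ≤ N → ∀ w : ℝ, 0 < w → w ≤ 1 / Real.log N →
    (∀ (q : ℕ) [NeZero q] (χ : DirichletCharacter ℂ q) (β : ℝ), RZ χ β → (q : ℝ) ≤ (N : ℝ) ^ κ →
      χ (-(N : ZMod q)) = 1 → w ≤ 1 - β) →
    1 / 2 + c ≤ sT N (w * Real.log N ^ (1 / 2 - δ)) := by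
  obtain ⟨κ₁, hκ₁, h1⟩ := rA_laws.lm (1 / 20) (by norm_num)
  obtain ⟨κ₂, hκ₂, h2⟩ := med_three (1 / 20) (by norm_num)
  obtain ⟨κ, hκ⟩ : ∃ κ, κ = min (min κ₁ κ₂) (1 / 2) := ⟨_, rfl⟩
  have hκ0 : 0 < κ := by
    rw [hκ]; exact lt_min (lt_min hκ₁ hκ₂) (by norm_num)
  have a1 : κ ≤ κ₁ := by rw [hκ]; exact (min_le_left _ _).trans (min_le_left _ _)
  have a2 : κ ≤ κ₂ := by rw [hκ]; exact (min_le_left _ _).trans (min_le_right _ _)
  have a3 : κ ≤ 1 / 2 := by rw [hκ]; exact min_le_right _ _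
  obtain ⟨c₀, hc₀, h0⟩ := rA_laws.l0 κ hκ0
  refine ⟨min c₀ (1 / 20), κ, lt_min hc₀ (by norm_num), hκ0, a3, fun δ hδ => ?_⟩
  obtain ⟨N₀, h0⟩ := h0 (1 / 2 + δ) (by linarith)
  obtain ⟨N₁, h1⟩ := h1 (1 / 2 + δ) (by linarith)
  obtain ⟨N₂, h2⟩ := h2 δ hδ
  refine ⟨N₀ + N₁ + N₂ + 3, fun N _ hN w hw hw1 hz => ?_⟩
  have hN3 : 3 ≤ N := by omega
  have hlog : 0 < Real.log N := by
    have := med_log hN3
    linarith
  have hc : min c₀ (1 / 20) ≤ 1 / 20 := min_le_right _ _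
  have hc' : min c₀ (1 / 20) ≤ c₀ := min_le_left _ _
  have hp : 0 < Real.log N ^ (1 / 2 - δ) := Real.rpow_pos_of_pos hlog _
  have key : w * Real.log N ^ (1 / 2 - δ) ≤ Real.log N ^ (-(1 / 2 + δ)) := by
    calc w * Real.log N ^ (1 / 2 - δ) ≤ 1 / Real.log N * Real.log N ^ (1 / 2 - δ) :=
          mul_le_mul_of_nonneg_right hw1 hp.le
      _ = Real.log N ^ (-(1 / 2 + δ)) := by
          rw [one_div, ← Real.rpow_neg_one, ← Real.rpow_add hlog]
          congr 1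
          ring
  by_cases hx : ∀ (q : ℕ) [NeZero q] (χ : DirichletCharacter ℂ q) (β : ℝ), ¬ XZ κ N χ β
  · have h3 := h0 N (by omega) hx
    rw [sT_rA] at h3
    have h4 := sT_anti (N := N) key
    linarith
  · push Not at hx
    obtain ⟨q, hq, χ, β, hx⟩ := hx
    rcases chi_pm hx.rz.pq (Fact.out : N.Prime) (q_lt_of_XZ hx (by linarith) hN3) with h | h
    · have h3 := h2 N (by omega) q χ β (hx.mono a2 hN3) h
      have h4 : w * Real.log N ^ (1 / 2 - δ) ≤ (1 - β) * Real.log N ^ (1 / 2 - δ) :=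
        mul_le_mul_of_nonneg_right (hz q χ β hx.rz hx.hq h) hp.le
      have h5 := sT_anti (N := N) h4
      linarith
    · have h3 := h1 N (by omega) q χ β (hx.mono a1 hN3) h
      rw [sT_rA] at h3
      have h4 := sT_anti (N := N) key
      linarith

end Pool.Agent.MED
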