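import Pool.Agent.Lib_helper9.MED.Law

/-!
# MED (MP_cc4f83_nt): the equivalence with zero free regions at every scale
-/

set_option autoImplicit false

namespace Pool.Agent.MED

open Filter Topology
open Pool.Agent.LK (PQ)
open Pool.Agent.LEV (S2 IsNew co Lh HE)
open Pool.Agent.T12

/-- a scale: nondecreasing on `[1, ∞)`, at least `log`, doubling -/
structure Sc (ω : ℝ → ℝ) : Prop where
  mono : ∀ x y : ℝ, 1 ≤ x → x ≤ y → ω x ≤ ω y
  log_le : ∀ x : ℝ, 1 ≤ x → Real.log x ≤ ω x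
  dbl : ∃ K : ℝ, ∀ x : ℝ, 1 ≤ x → ω (2 * x) ≤ K * ω x

/-- more than half of the central values exceed `exp(-C ω(log N))` -/
def BW (ω : ℝ → ℝ) (c : ℝ) : Prop := ∃ (C : ℝ) (N₀ : ℕ), ∀ (N : ℕ) [Fact N.Prime], N₀ ≤ N →
  1 / 2 + c ≤ sT N (Real.exp (-(C * ω (Real.log N))))

/-- real zeros -/
def ZW (ω : ℝ → ℝ) : Prop := ∃ (C : ℝ) (q₀ : ℕ), ∀ (q : ℕ) [NeZero q], q₀ ≤ q →
  ∀ (χ : DirichletCharacter ℂ q) (β : ℝ), RZ χ β → Real.exp (-(C * ω (Real.log q))) ≤ 1 - β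

/-- `L(1, χ)` -/
def LW (ω : ℝ → ℝ) : Prop := ∃ (C : ℝ) (q₀ : ℕ), ∀ (q : ℕ) [NeZero q], q₀ ≤ q →
  ∀ (χ : DirichletCharacter ℂ q), PQ χ →
  Real.exp (-(C * ω (Real.log q))) ≤ ‖DirichletCharacter.LFunction χ 1‖

/-- class number and regulator -/
def CW (ω : ℝ → ℝ) : Prop := ∃ C d₀ : ℝ, ∀ (K : Type) [Field K] [NumberField K],
  Module.finrank ℚ K = 2 → d₀ ≤ |(NumberField.discr K : ℝ)| →
  Real.sqrt |(NumberField.discr K : ℝ)| *
    Real.exp (-(C * ω (Real.log |(NumberField.discr K : ℝ)|))) ≤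
    NumberField.classNumber K * NumberField.Units.regulator K

variable {ω : ℝ → ℝ}

theorem Sc.nonneg (h : Sc ω) {x : ℝ} (hx : 1 ≤ x) : 0 ≤ ω x :=
  (Real.log_nonneg hx).trans (h.log_le x hx)

theorem Sc.exp_le (h : Sc ω) {x : ℝ} (hx : 1 ≤ x) : Real.exp (-(ω x)) ≤ 1 / x := by
  have hx0 : 0 < x := by linarith
  rw [Real.exp_neg, one_div]
  apply inv_anti₀ hx0
  calc x = Real.exp (Real.log x) := (Real.exp_log hx0).symm
    _ ≤ Real.exp (ω x) := Real.exp_le_exp.mpr (h.log_le x hx)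

theorem Sc.anti (h : Sc ω) {C C' x : ℝ} (hC : C ≤ C') (hx : 1 ≤ x) :
    Real.exp (-(C' * ω x)) ≤ Real.exp (-(C * ω x)) := by
  apply Real.exp_le_exp.mpr
  have := mul_le_mul_of_nonneg_right hC (h.nonneg hx)
  linarith

/-- a constant and powers are absorbed -/
theorem Sc.absorb (h : Sc ω) (C : ℝ) (k : ℕ) {a x : ℝ} (hx : 1 ≤ x) (ha : a ≤ x) :
    a * x ^ k * Real.exp (-((C + (k + 1)) * ω x)) ≤ Real.exp (-(C * ω x)) := by
  have hx0 : 0 < x := by linarith
  have h1 := h.exp_le hx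
  have e1 : Real.exp (-((C + (k + 1)) * ω x)) =
      Real.exp (-(C * ω x)) * Real.exp (-(ω x)) ^ (k + 1) := by
    rw [← Real.exp_nat_mul, ← Real.exp_add]
    congr 1
    push_cast
    ring
  have e2 : Real.exp (-(ω x)) ^ (k + 1) ≤ (1 / x) ^ (k + 1) :=
    pow_le_pow_left₀ (Real.exp_pos _).le h1 _
  have e3 : x * x ^ k * (1 / x) ^ (k + 1) = 1 := by
    rw [← pow_succ', ← mul_pow, mul_one_div_cancel hx0.ne', one_pow]
  have e4 : 0 < Real.exp (-(C * ω x)) := Real.exp_pos _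
  have e5 : 0 < Real.exp (-(ω x)) ^ (k + 1) := by positivity
  rw [e1]
  calc a * x ^ k * (Real.exp (-(C * ω x)) * Real.exp (-(ω x)) ^ (k + 1))
      ≤ x * x ^ k * (Real.exp (-(C * ω x)) * Real.exp (-(ω x)) ^ (k + 1)) := by
        apply mul_le_mul_of_nonneg_right _ (by positivity)
        exact mul_le_mul_of_nonneg_right ha (by positivity)
    _ ≤ x * x ^ k * (Real.exp (-(C * ω x)) * (1 / x) ^ (k + 1)) := by
        apply mul_le_mul_of_nonneg_left _ (by positivity)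
        exact mul_le_mul_of_nonneg_left e2 e4.le
    _ = Real.exp (-(C * ω x)) * (x * x ^ k * (1 / x) ^ (k + 1)) := by ring
    _ = Real.exp (-(C * ω x)) := by rw [e3, mul_one]

theorem Sc.pow (h : Sc ω) : ∃ K : ℝ, 1 ≤ K ∧ ∀ (m : ℕ) (x : ℝ), 1 ≤ x →
    ω (2 ^ m * x) ≤ K ^ m * ω x := by
  obtain ⟨K, hK⟩ := h.dbl
  refine ⟨max K 1, le_max_right _ _, fun m => ?_⟩
  induction m with
  | zero => intro x _; simp
  | succ m ih =>
    intro x hx
    have h1 : (1 : ℝ) ≤ 2 ^ m * x := by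
      have h2 : (1 : ℝ) ≤ 2 ^ m := one_le_pow₀ (by norm_num)
      nlinarith
    have h2 := hK (2 ^ m * x) h1
    have h3 := ih x hx
    have h4 := h.nonneg h1
    have h5 : K * ω (2 ^ m * x) ≤ max K 1 * ω (2 ^ m * x) :=
      mul_le_mul_of_nonneg_right (le_max_left _ _) h4
    have h6 : max K 1 * ω (2 ^ m * x) ≤ max K 1 * (max K 1 ^ m * ω x) :=
      mul_le_mul_of_nonneg_left h3 (by positivity)
    have h7 : (2 : ℝ) ^ (m + 1) * x = 2 * (2 ^ m * x) := by ring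
    rw [h7, pow_succ']
    calc ω (2 * (2 ^ m * x)) ≤ _ := h2
      _ ≤ _ := h5
      _ ≤ _ := h6
      _ = _ := by ring

theorem Sc.mul (h : Sc ω) (a : ℝ) : ∃ D : ℝ, 1 ≤ D ∧ ∀ x y : ℝ, 1 ≤ x → x ≤ y → y ≤ a * x →
    ω y ≤ D * ω x := by
  obtain ⟨K, hK, h1⟩ := h.pow
  obtain ⟨m, hm⟩ := pow_unbounded_of_one_lt a (one_lt_two : (1 : ℝ) < 2)
  refine ⟨K ^ m, one_le_pow₀ hK, fun x y hx hxy hy => ?_⟩
  refine (h.mono y (2 ^ m * x) (hx.trans hxy) ?_).trans (h1 m x hx)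
  exact hy.trans (mul_le_mul_of_nonneg_right hm.le (by linarith))

theorem med_big (B : ℝ) : ∃ N₀ : ℕ, ∀ N : ℕ, N₀ ≤ N → B ≤ Real.log N := by
  have h : Tendsto (fun N : ℕ => Real.log (N : ℝ)) atTop atTop :=
    Real.tendsto_log_atTop.comp tendsto_natCast_atTop_atTop
  exact Filter.eventually_atTop.mp (h.eventually_ge_atTop B)

/-- zeros and `L(1, χ)` -/
theorem zw_iff_lw (h : Sc ω) : ZW ω ↔ LW ω := by
  obtain ⟨C₄, hC₄, c₄, hc₄, h4⟩ := p4
  constructor
  · rintro ⟨C, q₀, hz⟩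
    obtain ⟨c', hc', h5⟩ := p5 c₄ hc₄
    obtain ⟨q₁, hq₁⟩ := med_big (max 8 (1 / c'))
    refine ⟨max C 1 + 1, q₀ + q₁, fun q _ hq χ hχ => ?_⟩
    obtain ⟨x, hxd⟩ : ∃ x : ℝ, x = Real.log q := ⟨_, rfl⟩
    have hx : 1 ≤ x := by rw [hxd]; exact c6_log hχ
    have hb := hq₁ q (by omega)
    rw [← hxd] at hb ⊢
    have hb8 : 8 ≤ x := (le_max_left _ _).trans hb
    have hbc : 1 / c' ≤ x := (le_max_right _ _).trans hb
    by_cases hall : ∀ β : ℝ, RZ χ β → c₄ < (1 - β) * Real.log q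
    · have h6 := h5 q χ hχ hall
      rw [← hxd] at h6
      refine le_trans ?_ h6
      have h7 := h.absorb 0 1 hx (le_refl x)
      have h8 : Real.exp (-((max C 1 + 1) * ω x)) ≤ Real.exp (-((0 + ((1 : ℕ) + 1)) * ω x)) := by
        apply h.anti _ hx
        have := le_max_right C 1
        push_cast
        linarith
      rw [zero_mul, neg_zero, Real.exp_zero] at h7
      have h9 : 0 < x := by linarith
      rw [div_le_iff₀ hc'] at hbc
      rw [le_div_iff₀ h9]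
      obtain ⟨e, he⟩ : ∃ e : ℝ, e = Real.exp (-((0 + ((1 : ℕ) + 1)) * ω x)) := ⟨_, rfl⟩
      rw [← he] at h7 h8
      have he0 : 0 < e := by rw [he]; exact Real.exp_pos _
      have h10 : Real.exp (-((max C 1 + 1) * ω x)) * x ≤ e * x :=
        mul_le_mul_of_nonneg_right h8 h9.le
      have h11 : (e * x) * 1 ≤ (e * x) * (x * c') :=
        mul_le_mul_of_nonneg_left hbc (by positivity)
      have h12 : (e * x) * (x * c') = (x * x ^ 1 * e) * c' := by ring
      have h13 : (x * x ^ 1 * e) * c' ≤ 1 * c' := mul_le_mul_of_nonneg_right h7 hc'.le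
      linarith
    · push Not at hall
      obtain ⟨β, hβ, hb1⟩ := hall
      refine le_trans ?_ (h4 q χ β hβ hb1).1
      have h6 := hz q (by omega) χ β hβ
      rw [← hxd] at h6
      have h7 := h.absorb (max C 1) 0 hx hb8
      have h8 := h.anti (le_max_left C 1) hx
      rw [pow_zero, mul_one] at h7
      push_cast at h7
      rw [zero_add] at h7
      linarith
  · rintro ⟨C, q₀, hL⟩
    obtain ⟨q₁, hq₁⟩ := med_big (max C₄ (1 / c₄))
    refine ⟨max C 0 + 3, q₀ + q₁, fun q _ hq χ β hβ => ?_⟩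
    obtain ⟨x, hxd⟩ : ∃ x : ℝ, x = Real.log q := ⟨_, rfl⟩
    have hx : 1 ≤ x := by rw [hxd]; exact c6_log hβ.pq
    have hx0 : 0 < x := by linarith
    have hb := hq₁ q (by omega)
    rw [← hxd] at hb ⊢
    have hbC : C₄ ≤ x := (le_max_left _ _).trans hb
    have hbc : 1 / c₄ ≤ x := (le_max_right _ _).trans hb
    by_cases hb1 : (1 - β) * Real.log q ≤ c₄
    · have h6 := (h4 q χ β hβ hb1).2
      have h7 := hL q (by omega) χ hβ.pq
      rw [← hxd] at h6 h7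
      have h8 := h.anti (le_max_left C 0) hx
      have h9 := h.absorb (max C 0) 2 hx hbC
      have h10 : ((2 : ℕ) : ℝ) + 1 = 3 := by norm_num
      rw [h10] at h9
      obtain ⟨e, he⟩ : ∃ e : ℝ, e = Real.exp (-((max C 0 + 3) * ω x)) := ⟨_, rfl⟩
      rw [← he] at h9 ⊢
      have h11 : 0 < C₄ * x ^ 2 := by positivity
      have h12 : C₄ * x ^ 2 * e ≤ C₄ * x ^ 2 * (1 - β) := by
        have h13 : C₄ * (1 - β) * x ^ 2 = C₄ * x ^ 2 * (1 - β) := by ring
        linarith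
      exact le_of_mul_le_mul_left h12 h11
    · push Not at hb1
      rw [← hxd] at hb1
      have h6 := h.absorb 0 1 hx (le_refl x)
      have h7 : Real.exp (-((max C 0 + 3) * ω x)) ≤ Real.exp (-((0 + ((1 : ℕ) + 1)) * ω x)) := by
        apply h.anti _ hx
        have := le_max_right C 0
        push_cast
        linarith
      rw [zero_mul, neg_zero, Real.exp_zero] at h6
      obtain ⟨e, he⟩ : ∃ e : ℝ, e = Real.exp (-((0 + ((1 : ℕ) + 1)) * ω x)) := ⟨_, rfl⟩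
      rw [← he] at h6 h7
      have he0 : 0 < e := by rw [he]; exact Real.exp_pos _
      rw [div_le_iff₀ hc₄] at hbc
      have h8 : e * x ≤ (1 - β) * x := by
        have h9 : (e * x) * 1 ≤ (e * x) * (x * c₄) :=
          mul_le_mul_of_nonneg_left hbc (by positivity)
        have h10 : (e * x) * (x * c₄) = (x * x ^ 1 * e) * c₄ := by ring
        have h11 : (x * x ^ 1 * e) * c₄ ≤ 1 * c₄ := mul_le_mul_of_nonneg_right h6 hc₄.le
        linarith
      exact h7.trans (le_of_mul_le_mul_right h8 hx0)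

/-- `L(1, χ)` and class numbers -/
theorem lw_iff_cw (h : Sc ω) : LW ω ↔ CW ω := by
  constructor
  · rintro ⟨C, q₀, hL⟩
    obtain ⟨q₁, hq₁⟩ := med_big 4
    refine ⟨C + 1, ((q₀ + q₁ : ℕ) : ℝ), fun K _ _ hK hd => ?_⟩
    obtain ⟨q, _, χ, hχ, h1⟩ := CN.nl_char hK
    have h2 := CN.nl_abs h1
    rw [h2] at hd
    have hq : q₀ + q₁ ≤ q := by exact_mod_cast hd
    have hx : 1 ≤ Real.log q := c6_log hχ
    have h3 := hL q (by omega) χ hχ
    have h4 := CN.nl_up hK hχ h1 (c := 1) (x := Real.exp (-(C * ω (Real.log q)))) (by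
      rw [one_mul]
      exact h3)
    refine le_trans ?_ h4
    rw [h2]
    have h5 := h.absorb C 0 hx (hq₁ q (by omega))
    rw [pow_zero, mul_one] at h5
    push_cast at h5
    rw [zero_add] at h5
    have h6 := mul_le_mul_of_nonneg_left h5 (Real.sqrt_nonneg (q : ℝ))
    have h7 : Real.sqrt (q : ℝ) * (4 * Real.exp (-((C + 1) * ω (Real.log q)))) =
      4 * (Real.sqrt (q : ℝ) * Real.exp (-((C + 1) * ω (Real.log q)))) := by ring
    rw [h7] at h6
    linarith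
  · rintro ⟨C, d₀, hK⟩
    obtain ⟨q₁, hq₁⟩ := med_big 12
    refine ⟨C + 1, ⌈d₀⌉₊ + q₁, fun q _ hq χ hχ => ?_⟩
    obtain ⟨K, _, _, hK2, h1⟩ := CN.nl_field hχ
    have h2 := CN.nl_abs h1
    have hx : 1 ≤ Real.log q := c6_log hχ
    have hd : d₀ ≤ |(NumberField.discr K : ℝ)| := by
      rw [h2]
      refine (Nat.le_ceil d₀).trans ?_
      exact_mod_cast (by omega : ⌈d₀⌉₊ ≤ q)
    have h3 := hK K hK2 hd
    have h4 := CN.nl_low hK2 hχ h1 (c := 1)
      (x := Real.exp (-(C * ω (Real.log |(NumberField.discr K : ℝ)|)))) (by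
      rw [one_mul]
      exact h3)
    refine le_trans ?_ h4
    rw [h2]
    have h5 := h.absorb C 0 hx (hq₁ q (by omega))
    rw [pow_zero, mul_one] at h5
    push_cast at h5
    rw [zero_add] at h5
    linarith

/-- the law of `med_low` -/
def LowLaw (c κ : ℝ) : Prop := ∀ δ : ℝ, 0 < δ → ∃ N₀ : ℕ,
    ∀ (N : ℕ) [Fact N.Prime], N₀ ≤ N → ∀ w : ℝ, 0 < w → w ≤ 1 / Real.log N →
    (∀ (q : ℕ) [NeZero q] (χ : DirichletCharacter ℂ q) (β : ℝ), RZ χ β → (q : ℝ) ≤ (N : ℝ) ^ κ →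
      χ (-(N : ZMod q)) = 1 → w ≤ 1 - β) →
    1 / 2 + c ≤ sT N (w * Real.log N ^ (1 / 2 - δ))

/-- from zeros to central values -/
theorem bw_of_zw {c κ : ℝ} (hL : LowLaw c κ) (hκ : κ ≤ 1 / 2) (h : Sc ω) (hz : ZW ω) :
    BW ω c := by
  obtain ⟨C, q₀, hz⟩ := hz
  obtain ⟨c₀, hc₀, h0⟩ := p0
  obtain ⟨N₁, h1⟩ := hL (1 / 2) (by norm_num)
  obtain ⟨N₂, h2⟩ := med_big (((q₀ : ℝ) + 1) / c₀)
  obtain ⟨C₁, hC₁⟩ : ∃ C₁ : ℝ, C₁ = max C 1 := ⟨_, rfl⟩
  have hC1 : 1 ≤ C₁ := by rw [hC₁]; exact le_max_right _ _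
  have hC2 : C ≤ C₁ := by rw [hC₁]; exact le_max_left _ _
  refine ⟨C₁, N₁ + N₂ + 3, fun N _ hN => ?_⟩
  have hN3 : 3 ≤ N := by omega
  have hlog := med_log hN3
  have hN1 : (1 : ℝ) < N := by exact_mod_cast (by omega : 1 < N)
  obtain ⟨w, hw⟩ : ∃ w : ℝ, w = Real.exp (-(C₁ * ω (Real.log N))) := ⟨_, rfl⟩
  have hw0 : 0 < w := by rw [hw]; exact Real.exp_pos _
  have hw1 : w ≤ 1 / Real.log N := by
    rw [hw]
    refine le_trans ?_ (h.exp_le hlog.le)
    have := h.anti hC1 hlog.le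
    rwa [one_mul] at this
  have h3 := h1 N (by omega) w hw0 hw1 (fun q _ χ β hr hq _ => by
    have hq0 : (0 : ℝ) < q := by exact_mod_cast Nat.pos_of_ne_zero (NeZero.ne q)
    have hx : 1 ≤ Real.log q := c6_log hr.pq
    have hqN : (q : ℝ) ≤ N := by
      refine hq.trans ?_
      calc (N : ℝ) ^ κ ≤ (N : ℝ) ^ (1 : ℝ) :=
            Real.rpow_le_rpow_of_exponent_le hN1.le (by linarith)
        _ = N := Real.rpow_one _
    have hlq : Real.log q ≤ Real.log N := Real.log_le_log hq0 hqN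
    rcases Nat.lt_or_ge q q₀ with h4 | h4
    · have h5 := h0 q χ β hr
      have h6 : c₀ / ((q₀ : ℝ) + 1) ≤ c₀ / q := by
        apply div_le_div_of_nonneg_left hc₀.le hq0
        have : (q : ℝ) ≤ q₀ := by exact_mod_cast h4.le
        linarith
      have h7 := h2 N (by omega)
      have h8 : 1 / Real.log N ≤ c₀ / ((q₀ : ℝ) + 1) := by
        rw [div_le_iff₀ hc₀] at h7
        rw [div_le_div_iff₀ (by linarith) (by positivity)]
        linarith
      linarith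
    · have h5 := hz q h4 χ β hr
      have h6 := h.anti hC2 hx
      have h7 : w ≤ Real.exp (-(C₁ * ω (Real.log q))) := by
        rw [hw]
        apply Real.exp_le_exp.mpr
        have h8 := h.mono _ _ hx hlq
        have h9 := mul_le_mul_of_nonneg_left h8 (show 0 ≤ C₁ by linarith)
        linarith
      linarith)
  have e : (1 : ℝ) / 2 - 1 / 2 = 0 := by norm_num
  rw [e, Real.rpow_zero, mul_one, hw] at h3
  exact h3

/-- from central values to zeros -/
theorem zw_of_bw (h : Sc ω) {c : ℝ} (hc : 0 < c) (hb : BW ω c) : ZW ω := by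
  obtain ⟨C, N₀, hb⟩ := hb
  obtain ⟨κ, hκ, hu⟩ := med_up (c / 2) (by positivity)
  obtain ⟨N₁, hu⟩ := hu (1 / 2) (by norm_num)
  obtain ⟨K₀, hK₀, hp⟩ := p1
  obtain ⟨K, hKd⟩ : ∃ K : ℝ, K = max K₀ (1 / κ) := ⟨_, rfl⟩
  have hK1 : K₀ ≤ K := by rw [hKd]; exact le_max_left _ _
  have hK2 : 1 / κ ≤ K := by rw [hKd]; exact le_max_right _ _
  have hK3 : 1 ≤ K := hK₀.trans hK1
  obtain ⟨c₁, q₁, hc₁, hp⟩ := hp K hK1
  obtain ⟨D, hD, hm⟩ := h.mul (K + 2)
  obtain ⟨C₀, hC₀⟩ : ∃ C₀ : ℝ, C₀ = max C 0 := ⟨_, rfl⟩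
  have hC1 : C ≤ C₀ := by rw [hC₀]; exact le_max_left _ _
  have hC2 : 0 ≤ C₀ := by rw [hC₀]; exact le_max_right _ _
  obtain ⟨q₂, hq₂⟩ := med_big (max (1 / c₁) (2 * (K + 2) / κ))
  refine ⟨(C₀ + 1) * D + 2, N₀ + N₁ + q₁ + q₂ + 3, fun q _ hq χ β hr => ?_⟩
  by_contra hcon
  push Not at hcon
  obtain ⟨x, hxd⟩ : ∃ x : ℝ, x = Real.log q := ⟨_, rfl⟩
  have hx : 1 ≤ x := by rw [hxd]; exact c6_log hr.pq
  have hx0 : 0 < x := by linarith
  have hbig := hq₂ q (by omega)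
  rw [← hxd] at hbig hcon
  have hb1 : 1 / c₁ ≤ x := (le_max_left _ _).trans hbig
  have hb2 : 2 * (K + 2) / κ ≤ x := (le_max_right _ _).trans hbig
  have hω := h.nonneg hx
  have hq0 : (0 : ℝ) < q := by exact_mod_cast Nat.pos_of_ne_zero (NeZero.ne q)
  have hq1 : (1 : ℝ) ≤ q := by exact_mod_cast (by omega : 1 ≤ q)
  have hβ0 : 0 < 1 - β := by have := hr.lt; linarith
  -- `1 - β ≤ 1 / x²`
  have hsq : (1 - β) * x * x ≤ 1 := by
    have h1 := h.absorb 0 1 hx (le_refl x)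
    rw [zero_mul, neg_zero, Real.exp_zero] at h1
    have h2 : Real.exp (-(((C₀ + 1) * D + 2) * ω x)) ≤
        Real.exp (-((0 + ((1 : ℕ) + 1)) * ω x)) := by
      apply h.anti _ hx
      have : 0 ≤ (C₀ + 1) * D := by positivity
      push_cast
      linarith
    have h3 : 1 - β ≤ Real.exp (-((0 + ((1 : ℕ) + 1)) * ω x)) := by linarith
    have h4 : (1 - β) * (x * x) ≤ Real.exp (-((0 + ((1 : ℕ) + 1)) * ω x)) * (x * x) :=
      mul_le_mul_of_nonneg_right h3 (by positivity)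
    have h5 : Real.exp (-((0 + ((1 : ℕ) + 1)) * ω x)) * (x * x) =
      x * x ^ 1 * Real.exp (-((0 + ((1 : ℕ) + 1)) * ω x)) := by ring
    have h6 : (1 - β) * x * x = (1 - β) * (x * x) := by ring
    linarith
  have hs : (1 - β) * Real.log q ≤ c₁ := by
    rw [← hxd]
    rw [div_le_iff₀ hc₁] at hb1
    have h1 : ((1 - β) * x) * 1 ≤ ((1 - β) * x) * (x * c₁) :=
      mul_le_mul_of_nonneg_left hb1 (by positivity)
    have h2 : ((1 - β) * x) * (x * c₁) = ((1 - β) * x * x) * c₁ := by ring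
    have h3 := mul_le_mul_of_nonneg_right hsq hc₁.le
    linarith
  have hχ1 : χ (-1) = 1 ∨ χ (-1) = -1 := by
    have h1 : χ (-1) ^ 2 = 1 := by
      rw [← map_pow]
      simp
    exact sq_eq_one_iff.1 h1
  obtain ⟨N, hNp, hNl, hNu, hNs⟩ := hp q χ β (by omega) hr hs (χ (-1)) hχ1
  have : Fact N.Prime := ⟨hNp⟩
  have hqN : (q : ℝ) ≤ N := by
    refine le_trans ?_ hNl
    calc (q : ℝ) = (q : ℝ) ^ (1 : ℝ) := (Real.rpow_one _).symm
      _ ≤ (q : ℝ) ^ K := Real.rpow_le_rpow_of_exponent_le hq1 hK3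
  have hqN' : q ≤ N := by exact_mod_cast hqN
  have hN0 : (0 : ℝ) < N := by linarith
  have hN1 : (1 : ℝ) ≤ N := by linarith
  have hlN := med_log (show 3 ≤ N by omega)
  have hl1 : x ≤ Real.log N := by
    rw [hxd]
    exact Real.log_le_log hq0 hqN
  have hl2 : Real.log N ≤ (K + 2) * x := by
    rw [hxd, ← Real.log_rpow hq0]
    exact Real.log_le_log hN0 hNu
  have hχN : χ (-(N : ZMod q)) = 1 := by
    have h1 : -(N : ZMod q) = (-1) * (N : ZMod q) := by ring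
    rw [h1, map_mul, hNs, ← sq]
    rcases hχ1 with h2 | h2
    · rw [h2]; norm_num
    · rw [h2]; norm_num
  have hxz : XZ κ N χ β := by
    refine ⟨hr, ?_, ?_⟩
    · have h1 : (q : ℝ) = ((q : ℝ) ^ K) ^ (1 / K) := by
        rw [← Real.rpow_mul hq0.le, mul_one_div_cancel (by linarith), Real.rpow_one]
      rw [h1]
      calc ((q : ℝ) ^ K) ^ (1 / K) ≤ (N : ℝ) ^ (1 / K) :=
            Real.rpow_le_rpow (by positivity) hNl (by positivity)
        _ ≤ (N : ℝ) ^ κ := by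
            apply Real.rpow_le_rpow_of_exponent_le hN1
            rw [div_le_iff₀ (by linarith)]
            rw [div_le_iff₀ hκ] at hK2
            linarith
    · have h1 : 1 - β < κ / Real.log N := by
        rw [lt_div_iff₀ (by linarith)]
        rw [div_le_iff₀ hκ] at hb2
        have h2 : (1 - β) * Real.log N ≤ (1 - β) * ((K + 2) * x) :=
          mul_le_mul_of_nonneg_left hl2 hβ0.le
        have h3 : (1 - β) * ((2 * (K + 2)) * x) ≤ (1 - β) * ((x * κ) * x) := by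
          apply mul_le_mul_of_nonneg_left _ hβ0.le
          exact mul_le_mul_of_nonneg_right hb2 hx0.le
        have h4 : (1 - β) * ((x * κ) * x) = ((1 - β) * x * x) * κ := by ring
        have h5 := mul_le_mul_of_nonneg_right hsq hκ.le
        have h6 : (1 - β) * ((2 * (K + 2)) * x) = 2 * ((1 - β) * ((K + 2) * x)) := by ring
        linarith
      linarith
  have h1 := hu N (by omega) q χ β hxz hχN
  have h2 := hb N (by omega)
  have e : (1 : ℝ) / 2 + 1 / 2 = 1 := by norm_num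
  rw [e, Real.rpow_one] at h1
  have h3 : sT N (Real.exp (-(C * ω (Real.log N)))) ≤
      sT N (Real.exp (-(C₀ * ω (Real.log N)))) := sT_anti (h.anti hC1 hlN.le)
  have h4 : (1 - β) * Real.log N ≤ Real.exp (-(C₀ * ω (Real.log N))) := by
    have h5 : Real.log N ≤ Real.exp (ω (Real.log N)) := by
      calc Real.log N = Real.exp (Real.log (Real.log N)) := (Real.exp_log (by linarith)).symm
        _ ≤ _ := Real.exp_le_exp.mpr (h.log_le _ hlN.le)
    have h6 : 1 - β ≤ Real.exp (-((C₀ + 1) * ω (Real.log N))) := by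
      refine hcon.le.trans ?_
      apply Real.exp_le_exp.mpr
      have h7 := hm x (Real.log N) hx hl1 hl2
      have h8 := mul_le_mul_of_nonneg_left h7 (show 0 ≤ C₀ + 1 by linarith)
      have h9 : ((C₀ + 1) * D + 2) * ω x = (C₀ + 1) * (D * ω x) + 2 * ω x := by ring
      linarith
    calc (1 - β) * Real.log N ≤
          Real.exp (-((C₀ + 1) * ω (Real.log N))) * Real.exp (ω (Real.log N)) :=
            mul_le_mul h6 h5 (by linarith) (Real.exp_pos _).le
      _ = Real.exp (-(C₀ * ω (Real.log N))) := by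
          rw [← Real.exp_add]
          congr 1
          ring
  have h5 : sT N (Real.exp (-(C₀ * ω (Real.log N)))) ≤ sT N ((1 - β) * Real.log N) := sT_anti h4
  linarith

end Pool.Agent.MED
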